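import Pool.Agent.Helper53.Comp.GoalsC

/-!
# Packet A4: the poles of the zeta function of an arrangement come from connected flats
-/

namespace Mono

namespace Comp

open Finset

namespace A4

/-! ### Poles -/

theorem pol_of_dvd {x y w : RatFunc ℂ} {z : ℂ} (h : w.denom ∣ x.denom * y.denom)
    (hw : w.denom.eval z = 0) : x.denom.eval z = 0 ∨ y.denom.eval z = 0 := by
  obtain ⟨c, hc⟩ := h
  have h1 : (x.denom * y.denom).eval z = 0 := by rw [hc, Polynomial.eval_mul, hw, zero_mul]
  rwa [Polynomial.eval_mul, mul_eq_zero] at h1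

theorem pol_mul {x y : RatFunc ℂ} {z : ℂ} (h : (x * y).denom.eval z = 0) :
    x.denom.eval z = 0 ∨ y.denom.eval z = 0 :=
  pol_of_dvd (RatFunc.denom_mul_dvd x y) h

theorem pol_add {x y : RatFunc ℂ} {z : ℂ} (h : (x + y).denom.eval z = 0) :
    x.denom.eval z = 0 ∨ y.denom.eval z = 0 :=
  pol_of_dvd (RatFunc.denom_add_dvd x y) h

theorem pol_C (a z : ℂ) : ¬ (RatFunc.C a : RatFunc ℂ).denom.eval z = 0 := by
  rw [RatFunc.denom_C, Polynomial.eval_one]
  exact one_ne_zero

theorem pol_zero (z : ℂ) : ¬ (0 : RatFunc ℂ).denom.eval z = 0 := by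
  rw [RatFunc.denom_zero, Polynomial.eval_one]
  exact one_ne_zero

theorem pol_sum {ι : Type} {s : Finset ι} {f : ι → RatFunc ℂ} {z : ℂ}
    (h : (∑ i ∈ s, f i).denom.eval z = 0) : ∃ i ∈ s, (f i).denom.eval z = 0 := by
  classical
  induction s using Finset.induction_on with
  | empty =>
    rw [sum_empty] at h
    exact (pol_zero z h).elim
  | insert a s ha ih =>
    rw [sum_insert ha] at h
    rcases pol_add h with h | h
    · exact ⟨a, mem_insert_self _ _, h⟩
    · obtain ⟨i, hi, h⟩ := ih h
      exact ⟨i, mem_insert_of_mem hi, h⟩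

theorem lin_eq (a b : ℂ) : (RatFunc.C a * RatFunc.X + RatFunc.C b : RatFunc ℂ) =
    algebraMap (Polynomial ℂ) (RatFunc ℂ) (Polynomial.C a * Polynomial.X + Polynomial.C b) := by
  simp

theorem lin_ne {a b : ℂ} (hb : b ≠ 0) : (RatFunc.C a * RatFunc.X + RatFunc.C b : RatFunc ℂ) ≠ 0 := by
  rw [lin_eq]
  intro h
  have h1 : Polynomial.C a * Polynomial.X + Polynomial.C b = 0 :=
    (map_eq_zero_iff _ (RatFunc.algebraMap_injective ℂ)).1 h
  have h2 := congrArg (Polynomial.eval 0) h1
  simp at h2
  exact hb h2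

theorem pol_lin {a b z : ℂ} (hb : b ≠ 0)
    (h : (1 / (RatFunc.C a * RatFunc.X + RatFunc.C b : RatFunc ℂ)).denom.eval z = 0) :
    a * z + b = 0 := by
  have h0 : Polynomial.C a * Polynomial.X + Polynomial.C b ≠ 0 := by
    intro h1
    have h2 := congrArg (Polynomial.eval 0) h1
    simp at h2
    exact hb h2
  rw [lin_eq, ← map_one (algebraMap (Polynomial ℂ) (RatFunc ℂ))] at h
  obtain ⟨c, hc⟩ := RatFunc.denom_div_dvd (1 : Polynomial ℂ)
    (Polynomial.C a * Polynomial.X + Polynomial.C b)
  have h2 := congrArg (Polynomial.eval z) hc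
  rw [Polynomial.eval_mul, h, zero_mul] at h2
  simpa using h2

/-! ### Ranks -/

section rank

variable {α : Type} [DecidableEq α] {r : Finset α → ℕ}

/-- Additivity of the rank for subsets. -/
theorem add_rk (hr : RankFn r) {A B : Finset α} (hd : Disjoint A B)
    (h : r (A ∪ B) = r A + r B) {S T : Finset α} (hS : S ⊆ A) (hT : T ⊆ B) :
    r (S ∪ T) = r S + r T := by
  have h1 := hr.submod (A ∪ T) B
  have e1 : A ∪ T ∪ B = A ∪ B := by
    rw [union_assoc, union_eq_right.2 hT]
  have e2 : (A ∪ T) ∩ B = T := by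
    rw [union_inter_distrib_right, disjoint_iff_inter_eq_empty.1 hd, empty_union,
      inter_eq_left.2 hT]
  rw [e1, e2] at h1
  have h2 := hr.submod (S ∪ T) A
  have hTA : T ∩ A = ∅ :=
    disjoint_iff_inter_eq_empty.1 ((hd.mono_right hT).symm)
  have e3 : S ∪ T ∪ A = A ∪ T := by
    rw [union_assoc, union_comm T A, ← union_assoc, union_eq_right.2 hS]
  have e4 : (S ∪ T) ∩ A = S := by
    rw [union_inter_distrib_right, hTA, union_empty, inter_eq_left.2 hS]
  rw [e3, e4] at h2
  have h3 := hr.submod S T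
  omega

end rank

variable {M : ArrGerm}

theorem flat_inter {F G : Finset (Fin M.m)} (hF : M.IsFlat F) (hG : M.IsFlat G) :
    M.IsFlat (F ∩ G) := by
  intro h hh
  rw [mem_inter]
  refine ⟨hF h (Submodule.span_mono (Set.image_mono ?_) hh),
    hG h (Submodule.span_mono (Set.image_mono ?_) hh)⟩
  · exact coe_subset.2 inter_subset_left
  · exact coe_subset.2 inter_subset_right

/-- The two parts of a disconnected flat are flats. -/
theorem flat_part (hrk : ArrRank) {A B : Finset (Fin M.m)} (hd : Disjoint A B)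
    (hF : M.IsFlat (A ∪ B)) (h : M.rk (A ∪ B) = M.rk A + M.rk B) : M.IsFlat A := by
  obtain ⟨hr, h1, hfl, _⟩ := hrk M
  rw [hfl]
  intro x hx
  by_contra hne
  have h2 := hr.insert A x
  have h3 := hr.mono A (insert x A) (subset_insert _ _)
  have h4 : M.rk (insert x A) = M.rk A := by omega
  have h5 := hr.submod (insert x A) B
  rw [insert_union] at h5
  have h6 : x ∈ A ∪ B := by
    by_contra hx'
    have := (hfl _).1 hF x hx'
    omega
  rw [mem_union] at h6
  rcases h6 with h6 | h6
  · exact hx h6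
  · have h7 : {x} ⊆ insert x A ∩ B := by
      rw [singleton_subset_iff, mem_inter]
      exact ⟨mem_insert_self _ _, h6⟩
    have h8 := hr.mono _ _ h7
    have h9 := hr.mono (A ∪ B) (insert x (A ∪ B)) (subset_insert _ _)
    have h10 := h1 x
    omega

/-- The union of flats of the two parts is a flat. -/
theorem flat_union (hrk : ArrRank) {A B : Finset (Fin M.m)} (hd : Disjoint A B)
    (hF : M.IsFlat (A ∪ B)) (h : M.rk (A ∪ B) = M.rk A + M.rk B) {S T : Finset (Fin M.m)}
    (hS : S ⊆ A) (hT : T ⊆ B) (fS : M.IsFlat S) (fT : M.IsFlat T) : M.IsFlat (S ∪ T) := by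
  obtain ⟨hr, h1, hfl, _⟩ := hrk M
  rw [hfl]
  intro x hx
  rw [mem_union, not_or] at hx
  have hST := add_rk hr hd h hS hT
  by_cases hxF : x ∈ A ∪ B
  · rw [mem_union] at hxF
    rcases hxF with hxA | hxB
    · have e1 : insert x (S ∪ T) = insert x S ∪ T := (insert_union _ _ _).symm
      have h2 := add_rk hr hd h (insert_subset hxA hS) hT
      have h3 := (hfl S).1 fS x hx.1
      rw [e1, h2, h3, hST]
      omega
    · have e1 : insert x (S ∪ T) = S ∪ insert x T := (union_insert _ _ _).symm
      have h2 := add_rk hr hd h hS (insert_subset hxB hT)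
      have h3 := (hfl T).1 fT x hx.2
      rw [e1, h2, h3, hST]
      omega
  · have h2 := (hfl _).1 hF x hxF
    have h3 := hr.insert (S ∪ T) x
    have h4 := hr.mono (S ∪ T) (insert x (S ∪ T)) (subset_insert _ _)
    have h5 := hr.submod (insert x (S ∪ T)) (A ∪ B)
    have e1 : insert x (S ∪ T) ∪ (A ∪ B) = insert x (A ∪ B) := by
      rw [insert_union, union_eq_right.2 (union_subset_union hS hT)]
    have e2 : insert x (S ∪ T) ∩ (A ∪ B) = S ∪ T := by
      rw [insert_inter_of_notMem hxF, inter_eq_left.2 (union_subset_union hS hT)]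
    rw [e1, e2, h2] at h5
    omega

/-- `eul` is `0` for a disconnected minor. -/
theorem eul_zero (hrk : ArrRank) (hC : Crapo) {A B : Finset (Fin M.m)} (hd : Disjoint A B)
    (h : M.rk (A ∪ B) = M.rk A + M.rk B) {S T : Finset (Fin M.m)}
    (hS : S ⊂ A) (hT : T ⊂ B) : M.eul (S ∪ T) (A ∪ B) = 0 := by
  obtain ⟨hr, h1, hfl, _⟩ := hrk M
  have hSA := hS.1
  have hTB := hT.1
  have hE : (A ∪ B) \ (S ∪ T) = (A \ S) ∪ (B \ T) := by
    ext x
    simp only [mem_sdiff, mem_union, not_or]
    have hx : x ∈ A → x ∉ B := fun ha hb => (disjoint_left.1 hd) ha hb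
    have := @hSA x
    have := @hTB x
    tauto
  have hnA : (A \ S).Nonempty := sdiff_nonempty.2 hS.2
  have hnB : (B \ T).Nonempty := sdiff_nonempty.2 hT.2
  have hnE : ((A ∪ B) \ (S ∪ T)).Nonempty := by
    rw [hE]
    exact hnA.mono subset_union_left
  have h2 := (hC (Fin M.m) M.rk hr (S ∪ T) ((A ∪ B) \ (S ∪ T)) disjoint_sdiff hnE).2.2
  have h3 : altR M.rk (S ∪ T) ((A ∪ B) \ (S ∪ T)) = 0 := by
    refine h2 fun hcon => ?_
    refine hcon (A \ S) (B \ T) hnA hnB ?_ hE.symm ?_
    · exact (hd.mono_left sdiff_subset).mono_right sdiff_subset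
    · have e1 : A \ S ∪ (S ∪ T) = A ∪ T := by
        rw [← union_assoc, sdiff_union_of_subset hSA]
      have e2 : B \ T ∪ (S ∪ T) = S ∪ B := by
        rw [union_comm S T, ← union_assoc, sdiff_union_of_subset hTB, union_comm]
      have e3 : (A ∪ B) \ (S ∪ T) ∪ (S ∪ T) = A ∪ B :=
        sdiff_union_of_subset (union_subset_union hSA hTB)
      rw [e1, e2, e3, add_rk hr hd h (Subset.refl A) hTB, add_rk hr hd h hSA (Subset.refl B),
        add_rk hr hd h hSA hTB, h]
      omega
  have h4 : M.eul (S ∪ T) (A ∪ B) = -altR M.rk (S ∪ T) ((A ∪ B) \ (S ∪ T)) := rfl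
  rw [h4, h3, neg_zero]

/-- `eul` over a part. -/
theorem eul_part (hrk : ArrRank) {A B : Finset (Fin M.m)} (hd : Disjoint A B)
    (h : M.rk (A ∪ B) = M.rk A + M.rk B) {T : Finset (Fin M.m)} (hT : T ⊂ B) :
    M.eul (A ∪ T) (A ∪ B) = M.eul T B := by
  obtain ⟨hr, h1, hfl, _⟩ := hrk M
  have hTB := hT.1
  have hE : (A ∪ B) \ (A ∪ T) = B \ T := by
    ext x
    simp only [mem_sdiff, mem_union, not_or]
    have hx : x ∈ A → x ∉ B := fun ha hb => (disjoint_left.1 hd) ha hb
    tauto
  have hn : (B \ T).Nonempty := sdiff_nonempty.2 hT.2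
  unfold ArrGerm.eul
  rw [hE]
  congr 1
  have h2 : ∀ S ∈ (B \ T).powerset, (-1 : ℤ) ^ S.card * (M.rk (S ∪ (A ∪ T)) : ℤ) =
      (-1) ^ S.card * (M.rk A : ℤ) + (-1) ^ S.card * (M.rk (S ∪ T) : ℤ) := by
    intro S hS
    rw [mem_powerset] at hS
    have e1 : S ∪ (A ∪ T) = A ∪ (S ∪ T) := by
      rw [← union_assoc, union_comm S A, union_assoc]
    have hST : S ∪ T ⊆ B := union_subset (hS.trans sdiff_subset) hTB
    rw [e1, add_rk hr hd h (Subset.refl A) hST]
    push_cast
    ring
  rw [sum_congr rfl h2, sum_add_distrib, ← sum_mul, sum_powerset_neg_one_pow_card_of_nonempty hn,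
    zero_mul, zero_add]

/-! ### The recursion -/

open Classical in
/-- The nonempty flats properly contained in `F`. -/
noncomputable def fl (M : ArrGerm) (F : Finset (Fin M.m)) : Finset (Finset (Fin M.m)) :=
  univ.filter (fun G => M.IsFlat G ∧ G.Nonempty ∧ G ⊂ F)

theorem mem_fl {F G : Finset (Fin M.m)} : G ∈ fl M F ↔ M.IsFlat G ∧ G.Nonempty ∧ G ⊂ F := by
  simp only [fl, mem_filter, mem_univ, true_and]

/-- The sum in the recursion. -/
noncomputable def SS (M : ArrGerm) (e : ℕ) (F : Finset (Fin M.m)) : RatFunc ℂ :=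
  RatFunc.C (M.eul ∅ F : ℂ) + ∑ G ∈ fl M F, RatFunc.C (M.eul G F : ℂ) * M.ZA e G

theorem rec_eq (hR : ArrRec) (e : ℕ) {F : Finset (Fin M.m)} (hF : M.IsFlat F)
    (hn : F.Nonempty) : M.ZA e F =
      (if e ∣ M.Nn F then
        1 / (RatFunc.C (M.Nn F : ℂ) * RatFunc.X + RatFunc.C (M.rk F : ℂ)) else 0) *
      SS M e F := by
  rw [(hR M e).2 F hF hn]
  unfold SS fl
  congr 3

/-- The flats of `A ∪ B` which contain `A`. -/
theorem side (hrk : ArrRank) {A B : Finset (Fin M.m)} (hd : Disjoint A B)
    (hF : M.IsFlat (A ∪ B)) (h : M.rk (A ∪ B) = M.rk A + M.rk B) (hA : A.Nonempty)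
    (fA : M.IsFlat A) (fB : M.IsFlat B) (hB : B.Nonempty) (e : ℕ)
    (ih : ∀ G ∈ fl M B, M.ZA e (A ∪ G) = M.ZA e A * M.ZA e G) :
    ∑ G ∈ (fl M (A ∪ B)).filter (fun G => A ⊆ G),
      RatFunc.C (M.eul G (A ∪ B) : ℂ) * M.ZA e G = M.ZA e A * SS M e B := by
  classical
  have h0 : ∅ ∉ fl M B := fun h => by
    have := (mem_fl.1 h).2.1
    simp at this
  have hsub : ∀ G ∈ insert ∅ (fl M B), G ⊂ B := by
    intro G hG
    rw [mem_insert] at hG
    rcases hG with rfl | hG
    · exact empty_ssubset.2 hB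
    · exact (mem_fl.1 hG).2.2
  have key : ∑ G ∈ (fl M (A ∪ B)).filter (fun G => A ⊆ G),
      RatFunc.C (M.eul G (A ∪ B) : ℂ) * M.ZA e G =
      ∑ G ∈ insert ∅ (fl M B), RatFunc.C (M.eul (A ∪ G) (A ∪ B) : ℂ) * M.ZA e (A ∪ G) := by
    symm
    refine sum_bij (fun G _ => A ∪ G) ?_ ?_ ?_ fun _ _ => rfl
    · intro G hG
      have hGB := hsub G hG
      have fG : M.IsFlat G := by
        rw [mem_insert] at hG
        rcases hG with rfl | hG
        · intro x hx
          exfalso
          have e1 : M.v '' ((∅ : Finset (Fin M.m)) : Set (Fin M.m)) = ∅ := by simp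
          rw [e1, Submodule.span_empty, Submodule.mem_bot] at hx
          exact M.ne x hx
        · exact (mem_fl.1 hG).1
      rw [mem_filter, mem_fl]
      refine ⟨⟨flat_union hrk hd hF h (Subset.refl A) hGB.1 fA fG,
        hA.mono subset_union_left, ?_⟩, subset_union_left⟩
      rw [Finset.ssubset_iff_subset_ne]
      refine ⟨union_subset_union (Subset.refl A) hGB.1, fun heq => hGB.2 ?_⟩
      intro x hx
      have h1 : x ∈ A ∪ G := by
        rw [heq]
        exact mem_union_right _ hx
      rw [mem_union] at h1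
      exact h1.resolve_left fun ha => (disjoint_left.1 hd) ha hx
    · intro G hG G' hG' heq
      have hGB := (hsub G hG).1
      have hGB' := (hsub G' hG').1
      have e1 : ∀ H : Finset (Fin M.m), H ⊆ B → (A ∪ H) ∩ B = H := fun H hH => by
        rw [union_inter_distrib_right, disjoint_iff_inter_eq_empty.1 hd, empty_union,
          inter_eq_left.2 hH]
      rw [← e1 G hGB, ← e1 G' hGB']
      exact congrArg (fun X => X ∩ B) heq
    · intro G hG
      rw [mem_filter, mem_fl] at hG
      obtain ⟨⟨fG, nG, hGF⟩, hAG⟩ := hG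
      have hGu : A ∪ G ∩ B = G := by
        ext x
        simp only [mem_union, mem_inter]
        have h1 := @hAG x
        have h2 : x ∈ G → x ∈ A ∨ x ∈ B := fun hx => mem_union.1 (hGF.1 hx)
        tauto
      refine ⟨G ∩ B, ?_, hGu⟩
      rw [mem_insert, mem_fl]
      rcases (G ∩ B).eq_empty_or_nonempty with h1 | h1
      · exact Or.inl h1
      · refine Or.inr ⟨flat_inter fG fB, h1, ?_⟩
        rw [Finset.ssubset_iff_subset_ne]
        refine ⟨inter_subset_right, fun heq => hGF.2 ?_⟩
        rw [← hGu, heq]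
  rw [key, sum_insert h0, union_empty]
  unfold SS
  have e1 : M.eul A (A ∪ B) = M.eul ∅ B := by
    have := eul_part hrk hd h (T := ∅) (empty_ssubset.2 hB)
    rwa [union_empty] at this
  rw [e1, mul_add, mul_sum]
  congr 1
  · ring
  · refine sum_congr rfl fun G hG => ?_
    rw [eul_part hrk hd h (mem_fl.1 hG).2.2, ih G hG]
    ring

/-- The zeta function is multiplicative. -/
theorem prod_eq (hrk : ArrRank) (hC : Crapo) (hR : ArrRec) (e : ℕ) : ∀ n : ℕ,
    ∀ A B : Finset (Fin M.m), A.card + B.card = n → Disjoint A B → A.Nonempty → B.Nonempty →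
      M.IsFlat (A ∪ B) → M.rk (A ∪ B) = M.rk A + M.rk B →
      M.ZA e (A ∪ B) = M.ZA e A * M.ZA e B := by
  classical
  intro n
  induction n using Nat.strong_induction_on with
  | _ n IH =>
    intro A B hn hd hA hB hF h
    obtain ⟨hr, h1, hfl, _⟩ := hrk M
    have h' : M.rk (B ∪ A) = M.rk B + M.rk A := by rw [union_comm, h, add_comm]
    have hF' : M.IsFlat (B ∪ A) := by rwa [union_comm]
    have fA : M.IsFlat A := flat_part hrk hd hF h
    have fB : M.IsFlat B := flat_part hrk hd.symm hF' h'
    have s1 := side hrk hd hF h hA fA fB hB e (by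
      intro G hG
      obtain ⟨fG, nG, hGB⟩ := mem_fl.1 hG
      refine IH (A.card + G.card) ?_ A G rfl (hd.mono_right hGB.1) hA nG
        (flat_union hrk hd hF h (Subset.refl A) hGB.1 fA fG)
        (add_rk hr hd h (Subset.refl A) hGB.1)
      have := card_lt_card hGB
      omega)
    have s2 := side hrk hd.symm hF' h' hB fB fA hA e (by
      intro G hG
      obtain ⟨fG, nG, hGA⟩ := mem_fl.1 hG
      refine IH (B.card + G.card) ?_ B G rfl (hd.symm.mono_right hGA.1) hB nG
        (flat_union hrk hd.symm hF' h' (Subset.refl B) hGA.1 fB fG)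
        (add_rk hr hd.symm h' (Subset.refl B) hGA.1)
      have := card_lt_card hGA
      omega)
    rw [union_comm B A] at s2
    have hsum : ∑ G ∈ fl M (A ∪ B), RatFunc.C (M.eul G (A ∪ B) : ℂ) * M.ZA e G =
        M.ZA e A * SS M e B + M.ZA e B * SS M e A := by
      rw [← sum_filter_add_sum_filter_not (fl M (A ∪ B)) (fun G => A ⊆ G), s1, ← s2]
      congr 1
      symm
      refine sum_subset ?_ ?_
      · intro G hG
        rw [mem_filter] at hG ⊢
        refine ⟨hG.1, fun hAG => ?_⟩
        exact (mem_fl.1 hG.1).2.2.2 (union_subset hAG hG.2)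
      · intro G hG hG'
        rw [mem_filter] at hG hG'
        obtain ⟨fG, nG, hGF⟩ := mem_fl.1 hG.1
        have hnB : ¬ B ⊆ G := fun hBG => hG' ⟨hG.1, hBG⟩
        have hGe : G = (G ∩ A) ∪ (G ∩ B) := by
          rw [← inter_union_distrib_left, inter_eq_left.2 hGF.1]
        have h2 : G ∩ A ⊂ A := by
          rw [Finset.ssubset_iff_subset_ne]
          exact ⟨inter_subset_right, fun heq => hG.2 (by rw [← heq]; exact inter_subset_left)⟩
        have h3 : G ∩ B ⊂ B := by
          rw [Finset.ssubset_iff_subset_ne]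
          exact ⟨inter_subset_right, fun heq => hnB (by rw [← heq]; exact inter_subset_left)⟩
        have h4 := eul_zero hrk hC hd h h2 h3
        rw [← hGe] at h4
        rw [h4, Int.cast_zero, map_zero, zero_mul]
    have hS : SS M e (A ∪ B) = M.ZA e A * SS M e B + M.ZA e B * SS M e A := by
      have h4 := eul_zero hrk hC hd h (empty_ssubset.2 hA) (empty_ssubset.2 hB)
      rw [empty_union] at h4
      unfold SS at hsum ⊢
      rw [hsum, h4, Int.cast_zero, map_zero, zero_add]
    have hN : M.Nn (A ∪ B) = M.Nn A + M.Nn B := sum_union hd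
    have pos : ∀ F : Finset (Fin M.m), F.Nonempty → (M.rk F : ℂ) ≠ 0 := by
      rintro F ⟨x, hx⟩
      have h2 := hr.mono {x} F (singleton_subset_iff.2 hx)
      have h3 := h1 x
      rw [Nat.cast_ne_zero]
      omega
    rw [rec_eq hR e hF (hA.mono subset_union_left), hS]
    have rA := rec_eq hR e fA hA
    have rB := rec_eq hR e fB hB
    by_cases eA : e ∣ M.Nn A
    · by_cases eB : e ∣ M.Nn B
      · have eF : e ∣ M.Nn (A ∪ B) := by
          rw [hN]
          exact dvd_add eA eB
        rw [if_pos eA] at rA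
        rw [if_pos eB] at rB
        rw [if_pos eF, rA, rB]
        have nA := lin_ne (a := (M.Nn A : ℂ)) (pos A hA)
        have nB := lin_ne (a := (M.Nn B : ℂ)) (pos B hB)
        have nF := lin_ne (a := (M.Nn (A ∪ B) : ℂ)) (pos _ (hA.mono (subset_union_left (s₂ := B))))
        have eL : (RatFunc.C (M.Nn (A ∪ B) : ℂ) * RatFunc.X + RatFunc.C (M.rk (A ∪ B) : ℂ) :
            RatFunc ℂ) = (RatFunc.C (M.Nn A : ℂ) * RatFunc.X + RatFunc.C (M.rk A : ℂ)) +
              (RatFunc.C (M.Nn B : ℂ) * RatFunc.X + RatFunc.C (M.rk B : ℂ)) := by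
          rw [hN, h]
          push_cast
          rw [map_add, map_add]
          ring
        rw [eL] at nF ⊢
        generalize (RatFunc.C (M.Nn A : ℂ) * RatFunc.X + RatFunc.C (M.rk A : ℂ) : RatFunc ℂ) = a
          at *
        generalize (RatFunc.C (M.Nn B : ℂ) * RatFunc.X + RatFunc.C (M.rk B : ℂ) : RatFunc ℂ) = b
          at *
        generalize SS M e A = x
        generalize SS M e B = y
        field_simp
        ring
      · have eF : ¬ e ∣ M.Nn (A ∪ B) := by
          rw [hN]
          exact fun h5 => eB ((Nat.dvd_add_right eA).1 h5)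
        rw [if_neg eB, zero_mul] at rB
        rw [if_neg eF, rB, zero_mul, mul_zero]
    · rw [if_neg eA, zero_mul] at rA
      by_cases eB : e ∣ M.Nn B
      · have eF : ¬ e ∣ M.Nn (A ∪ B) := by
          rw [hN]
          exact fun h5 => eA ((Nat.dvd_add_left eB).1 h5)
        rw [if_neg eF, rA, zero_mul, zero_mul]
      · rw [if_neg eB, zero_mul] at rB
        rw [rA, rB, zero_mul, zero_mul, zero_mul, add_zero, mul_zero]

end A4

open A4 in
/-- A4. -/
theorem arrPole : ArrPole := by
  classical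
  intro hrk hC hR M e he
  have key : ∀ n : ℕ, ∀ F : Finset (Fin M.m), F.card = n → M.IsFlat F → F.Nonempty → ∀ z : ℂ,
      (M.ZA e F).denom.eval z = 0 → ∃ G, M.IsFlat G ∧ G.Nonempty ∧ ConnR M.rk ∅ G ∧
        e ∣ M.Nn G ∧ (M.Nn G : ℂ) * z + M.rk G = 0 := by
    intro n
    induction n using Nat.strong_induction_on with
    | _ n IH =>
      intro F hn hF hne z hz
      obtain ⟨hr, h1, hfl, _⟩ := hrk M
      by_cases hc : ConnR M.rk ∅ F
      · rw [rec_eq hR e hF hne] at hz
        by_cases eF : e ∣ M.Nn F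
        · rw [if_pos eF] at hz
          rcases pol_mul hz with h | h
          · refine ⟨F, hF, hne, hc, eF, pol_lin ?_ h⟩
            obtain ⟨x, hx⟩ := hne
            have h2 := hr.mono {x} F (singleton_subset_iff.2 hx)
            have h3 := h1 x
            rw [Nat.cast_ne_zero]
            omega
          · unfold SS at h
            rcases pol_add h with h | h
            · exact (pol_C _ _ h).elim
            · obtain ⟨G, hG, h⟩ := pol_sum h
              obtain ⟨fG, nG, hGF⟩ := mem_fl.1 hG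
              rcases pol_mul h with h | h
              · exact (pol_C _ _ h).elim
              · exact IH G.card (by rw [← hn]; exact card_lt_card hGF) G rfl fG nG z h
        · rw [if_neg eF, zero_mul] at hz
          exact (pol_zero z hz).elim
      · unfold ConnR at hc
        push Not at hc
        obtain ⟨A, B, hA, hB, hd, hAB, hrAB⟩ := hc
        rw [union_empty, union_empty, union_empty, hr.empty, add_zero] at hrAB
        subst hAB
        have fA : M.IsFlat A := flat_part hrk hd hF hrAB.symm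
        have fB : M.IsFlat B := flat_part hrk hd.symm (by rwa [union_comm])
          (by rw [union_comm, ← hrAB, add_comm])
        have hcA : A.card < n := by
          rw [← hn, card_union_of_disjoint hd]
          have := hB.card_pos
          omega
        have hcB : B.card < n := by
          rw [← hn, card_union_of_disjoint hd]
          have := hA.card_pos
          omega
        rw [prod_eq hrk hC hR e _ A B rfl hd hA hB hF hrAB.symm] at hz
        rcases pol_mul hz with h | h
        · exact IH _ hcA A rfl fA hA z h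
        · exact IH _ hcB B rfl fB hB z h
  intro F hF hne z hz
  exact key _ F rfl hF hne z hz

end Comp

end Mono
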